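import Mathlib
import Pool.Agent.Y928.JL.GenU
import Pool.Agent.W472.AC.Joint

/-!
# Linear complexity of the digits of two numbers with a joint measure of approximation

The definitions and most of the lemmas are those of helper928's file
`Pool/Agent/Results/MP_363d4d_nt/DigitRecurrences.lean`, for a pair of real numbers in general.
-/

set_option autoImplicit false

namespace Pool.Agent.Y39.DG

open Finset Polynomial

/-- the `i`-th digit of `x` after the point in base `b` -/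
noncomputable def digit (b : ℕ) (x : ℝ) (i : ℕ) : ℤ := ⌊x * (b : ℝ) ^ i⌋ % (b : ℤ)

/-- The terms `s_1, …, s_L` satisfy the linear recurrence
`s_(i+m) = c_0 s_i + … + c_(m-1) s_(i+m-1)` for `1 ≤ i ≤ L - m`. -/
def Recurrence (s : ℕ → ℤ) (c : ℕ → ℚ) (L m : ℕ) : Prop :=
  ∀ i : ℕ, 1 ≤ i → i + m ≤ L → (s (i + m) : ℚ) = ∑ j ∈ range m, c j * (s (i + j) : ℚ)

/-- the linear complexity of the first `L` digits of `x` in base `b` -/
noncomputable def complexity (b : ℕ) (x : ℝ) (L : ℕ) : ℕ :=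
  sInf {m | ∃ c : ℕ → ℚ, Recurrence (digit b x) c L m}

/-- the joint `k`-error linear complexity of the first `L` digits of `x` and `y` in base `b`: the
least order of a common recurrence for the first `L` terms of two sequences of integers between `-b`
and `b` which agree with the digits of `x` and of `y` in all but at most `k` of the places
`1, …, L` -/
noncomputable def jointComplexity (b : ℕ) (x y : ℝ) (k L : ℕ) : ℕ :=
  sInf {m | ∃ (s s' : ℕ → ℤ) (c : ℕ → ℚ), (∀ i, |s i| ≤ b) ∧ (∀ i, |s' i| ≤ b) ∧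
    ((Icc 1 L).filter fun i => s i ≠ digit b x i ∨ s' i ≠ digit b y i).card ≤ k ∧
    Recurrence s c L m ∧ Recurrence s' c L m}

/-- the function `m + C √((m+1) log (m+2))` -/
noncomputable def F (C : ℝ) (m : ℕ) : ℝ :=
  m + C * Real.sqrt (((m : ℝ) + 1) * Real.log ((m : ℝ) + 2))

/-! ### the shift operator -/

/-- the shift -/
def S : (ℕ → ℚ) →ₗ[ℚ] (ℕ → ℚ) where
  toFun a i := a (i + 1)
  map_add' _ _ := rfl
  map_smul' _ _ := rfl

lemma S_pow (a : ℕ → ℚ) (j i : ℕ) : (S ^ j) a i = a (i + j) := by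
  induction j generalizing i with
  | zero => simp
  | succ j ih =>
    rw [pow_succ', Module.End.mul_apply]
    change ((S ^ j) a) (i + 1) = _
    rw [ih]
    congr 1
    ring

lemma aeval_S (P : ℚ[X]) (a : ℕ → ℚ) (i N : ℕ) (h : P.natDegree < N) :
    (aeval S P) a i = ∑ j ∈ range N, P.coeff j * a (i + j) := by
  rw [aeval_eq_sum_range' h, LinearMap.sum_apply, Finset.sum_apply]
  refine Finset.sum_congr rfl fun j _ => ?_
  rw [LinearMap.smul_apply, Pi.smul_apply, S_pow, smul_eq_mul]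

/-- the polynomial of a recurrence -/
noncomputable def poly (c : ℕ → ℚ) (m : ℕ) : ℚ[X] := X ^ m - ∑ j ∈ range m, C (c j) * X ^ j

lemma low_degree (c : ℕ → ℚ) (m : ℕ) : (∑ j ∈ range m, C (c j) * X ^ j : ℚ[X]).degree < m := by
  refine (degree_sum_le _ _).trans_lt ?_
  rw [Finset.sup_lt_iff (by exact_mod_cast WithBot.bot_lt_coe m)]
  intro j hj
  refine (degree_C_mul_X_pow_le _ _).trans_lt ?_
  exact_mod_cast mem_range.mp hj

lemma poly_monic (c : ℕ → ℚ) (m : ℕ) : (poly c m).Monic := monic_X_pow_sub (low_degree c m)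

lemma poly_natDegree (c : ℕ → ℚ) (m : ℕ) : (poly c m).natDegree = m := by
  apply natDegree_eq_of_degree_eq_some
  unfold poly
  rw [degree_sub_eq_left_of_degree_lt, degree_X_pow]
  rw [degree_X_pow]
  exact low_degree c m

lemma poly_coeff (c : ℕ → ℚ) (m j : ℕ) (hj : j < m) : (poly c m).coeff j = - c j := by
  unfold poly
  rw [coeff_sub, coeff_X_pow, if_neg hj.ne, finsetSum_coeff, zero_sub]
  congr 1
  rw [Finset.sum_eq_single j]
  · rw [coeff_C_mul_X_pow, if_pos rfl]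
  · intro l _ hl
    rw [coeff_C_mul_X_pow, if_neg hl.symm]
  · intro h
    exact absurd (mem_range.mpr hj) h

lemma poly_coeff_top (c : ℕ → ℚ) (m : ℕ) : (poly c m).coeff m = 1 := by
  have h := poly_monic c m
  rw [Monic, leadingCoeff, poly_natDegree] at h
  exact h

/-- a recurrence in terms of the shift -/
lemma rec_iff (s : ℕ → ℤ) (c : ℕ → ℚ) (L m : ℕ) :
    Recurrence s c L m ↔
      ∀ i : ℕ, 1 ≤ i → i + m ≤ L → (aeval S (poly c m)) (fun i => (s i : ℚ)) i = 0 := by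
  unfold Recurrence
  refine forall_congr' fun i => forall_congr' fun h1 => forall_congr' fun h2 => ?_
  rw [aeval_S _ _ i (m + 1) (by rw [poly_natDegree]; omega), Finset.sum_range_succ, poly_coeff_top,
    one_mul]
  have e : ∑ j ∈ range m, (poly c m).coeff j * (s (i + j) : ℚ) =
      - ∑ j ∈ range m, c j * (s (i + j) : ℚ) := by
    rw [← Finset.sum_neg_distrib]
    refine Finset.sum_congr rfl fun j hj => ?_
    rw [poly_coeff c m j (mem_range.mp hj)]
    ring
  rw [e]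
  constructor
  · intro h
    rw [h]; ring
  · intro h
    linarith

/-- if `P(S) a` vanishes on `1, …, L - m` then `Q(S) P(S) a` vanishes on `1, …, L - m - m'` -/
lemma mul_vanish (P Q : ℚ[X]) (a : ℕ → ℚ) (L m m' : ℕ) (hQ : Q.natDegree = m')
    (h : ∀ i : ℕ, 1 ≤ i → i + m ≤ L → (aeval S P) a i = 0) :
    ∀ i : ℕ, 1 ≤ i → i + (m + m') ≤ L → (aeval S (Q * P)) a i = 0 := by
  intro i h1 h2
  rw [map_mul, Module.End.mul_apply, aeval_S _ _ i (m' + 1) (by omega)]
  refine Finset.sum_eq_zero fun j hj => ?_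
  rw [mem_range] at hj
  rw [h (i + j) (by omega) (by omega), mul_zero]

/-- a common recurrence of order `m + m'` -/
theorem common (s s' : ℕ → ℤ) (c c' : ℕ → ℚ) (L m m' : ℕ) (h : Recurrence s c L m)
    (h' : Recurrence s' c' L m') :
    ∃ d : ℕ → ℚ, Recurrence s d L (m + m') ∧ Recurrence s' d L (m + m') := by
  rw [rec_iff] at h h'
  obtain ⟨R, hR⟩ : ∃ R : ℚ[X], R = poly c' m' * poly c m := ⟨_, rfl⟩
  have hRm : R.Monic := by
    rw [hR]; exact (poly_monic _ _).mul (poly_monic _ _)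
  have hRd : R.natDegree = m + m' := by
    rw [hR, (poly_monic _ _).natDegree_mul (poly_monic _ _), poly_natDegree, poly_natDegree,
      add_comm]
  have h1 := mul_vanish (poly c m) (poly c' m') _ L m m' (poly_natDegree _ _) h
  have h2 := mul_vanish (poly c' m') (poly c m) _ L m' m (poly_natDegree _ _) h'
  rw [← hR] at h1
  rw [mul_comm, ← hR, add_comm m' m] at h2
  have key : ∀ (a : ℕ → ℤ),
      (∀ i : ℕ, 1 ≤ i → i + (m + m') ≤ L → (aeval S R) (fun i => (a i : ℚ)) i = 0) →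
      Recurrence a (fun j => - R.coeff j) L (m + m') := by
    intro a ha i hi hiL
    have h3 := ha i hi hiL
    rw [aeval_S _ _ i (m + m' + 1) (by omega), Finset.sum_range_succ] at h3
    have h4 : R.coeff (m + m') = 1 := by
      have h5 := hRm
      rw [Monic, leadingCoeff, hRd] at h5
      exact h5
    rw [h4, one_mul] at h3
    have e : ∑ j ∈ range (m + m'), - R.coeff j * (a (i + j) : ℚ) =
        - ∑ j ∈ range (m + m'), R.coeff j * (a (i + j) : ℚ) := by
      rw [← Finset.sum_neg_distrib]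
      exact Finset.sum_congr rfl fun j _ => by ring
    rw [e]
    linarith
  exact ⟨fun j => - R.coeff j, key s h1, key s' h2⟩

/-! ### the measure -/

lemma dig_abs (b : ℕ) (hb : 2 ≤ b) (x : ℝ) (i : ℕ) : |digit b x i| ≤ b := by
  unfold digit
  have hb0 : (0 : ℤ) < b := by exact_mod_cast (by omega : 0 < b)
  rw [abs_of_nonneg (Int.emod_nonneg _ hb0.ne')]
  exact (Int.emod_lt_of_pos _ hb0).le

/-- the main inequality for a pair of numbers with a joint measure -/
theorem joint (μ c0 : ℝ) (hμ : 1 < μ) (hc0 : 0 < c0) (x y : ℝ)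
    (hM : ∀ q : ℕ, 1 ≤ q → ∀ p : Fin 2 → ℤ, ∃ j : Fin 2,
      c0 ≤ (q : ℝ) ^ (μ - 1) * |q * (![x, y] j) - p j|) :
    ∃ C : ℝ, 0 < C ∧ ∀ (b : ℕ), 2 ≤ b →
    ∀ (k L m : ℕ) (a a' : ℕ → ℤ) (c : ℕ → ℚ), (∀ i, |a i| ≤ b) → (∀ i, |a' i| ≤ b) →
    ((Icc 1 L).filter fun i => a i ≠ digit b x i ∨ a' i ≠ digit b y i).card ≤ k →
    Recurrence a c L m → Recurrence a' c L m →
      (L : ℝ) ≤ (∑ i ∈ range (k + 1), μ ^ (i + 1)) * F C m := by
  obtain ⟨C, hC0, hC⟩ := Pool.Agent.Y928.JL.uniform μ c0 0 hμ hc0 le_rfl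
  refine ⟨C, hC0, fun b hb k L m a a' c ha ha' hE hr hr' => ?_⟩
  have h := hC 2 ![x, y] (fun q hq p => by
      obtain ⟨j, hj⟩ := hM q hq p
      refine ⟨j, ?_⟩
      rw [Real.rpow_zero, mul_one]
      exact hj) b hb L m k
    ![fun i => a (i + 1), fun i => a' (i + 1)]
    (by
      intro j i _
      fin_cases j
      · exact ha _
      · exact ha' _)
    ⟨((Icc 1 L).filter fun i => a i ≠ digit b x i ∨
      a' i ≠ digit b y i).image (· - 1),
      Finset.card_image_le.trans hE, by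
        intro i hi hiE
        have hnot : ¬ (a (i + 1) ≠ digit b x (i + 1) ∨
            a' (i + 1) ≠ digit b y (i + 1)) := by
          intro hne
          apply hiE
          rw [mem_image]
          exact ⟨i + 1, by
            rw [mem_filter, mem_Icc]
            exact ⟨⟨by omega, by omega⟩, hne⟩, by omega⟩
        push Not at hnot
        intro j
        fin_cases j
        · exact hnot.1
        · exact hnot.2⟩
    ⟨c, by
      intro j i hi
      have key : ∀ a : ℕ → ℤ, Recurrence a c L m →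
          (a (i + m + 1) : ℚ) = ∑ l ∈ range m, c l * (a (i + l + 1) : ℚ) := by
        intro a ha
        have h1 := ha (i + 1) (by omega) (by omega)
        rw [show i + m + 1 = i + 1 + m by ring, h1]
        exact Finset.sum_congr rfl fun l _ => by rw [show i + l + 1 = i + 1 + l by ring]
      fin_cases j
      · exact key a hr
      · exact key a' hr'⟩
  exact h

/-! ### complexities -/

lemma F_mono {C : ℝ} (hC : 0 ≤ C) {m n : ℕ} (h : m ≤ n) : F C m ≤ F C n := by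
  unfold F
  have h1 : (m : ℝ) ≤ n := by exact_mod_cast h
  have hm : (0 : ℝ) ≤ m := Nat.cast_nonneg m
  have h2 : Real.log ((m : ℝ) + 2) ≤ Real.log ((n : ℝ) + 2) :=
    Real.log_le_log (by positivity) (by linarith)
  have h3 : 0 ≤ Real.log ((m : ℝ) + 2) := Real.log_nonneg (by linarith)
  have h4 : ((m : ℝ) + 1) * Real.log ((m : ℝ) + 2) ≤ ((n : ℝ) + 1) * Real.log ((n : ℝ) + 2) :=
    mul_le_mul (by linarith) h2 h3 (by linarith)
  have h5 := mul_le_mul_of_nonneg_left (Real.sqrt_le_sqrt h4) hC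
  linarith

lemma F_mono' {C C' : ℝ} (h : C ≤ C') (m : ℕ) : F C m ≤ F C' m := by
  unfold F
  have := mul_le_mul_of_nonneg_right h (Real.sqrt_nonneg (((m : ℝ) + 1) * Real.log ((m : ℝ) + 2)))
  linarith

lemma F_two {C : ℝ} (hC : 0 ≤ C) (m : ℕ) : F C (m + m) ≤ 2 * F C m := by
  unfold F
  have hm : (0 : ℝ) ≤ m := Nat.cast_nonneg m
  have hl : 0 ≤ Real.log ((m : ℝ) + 2) := Real.log_nonneg (by linarith)
  have h1 : Real.log (((m + m : ℕ) : ℝ) + 2) ≤ 2 * Real.log ((m : ℝ) + 2) := by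
    have h2 : (2 : ℝ) * Real.log ((m : ℝ) + 2) = Real.log (((m : ℝ) + 2) ^ 2) := by
      rw [Real.log_pow]; norm_num
    rw [h2]
    apply Real.log_le_log (by positivity)
    push_cast
    nlinarith
  have h3 : (((m + m : ℕ) : ℝ) + 1) * Real.log (((m + m : ℕ) : ℝ) + 2) ≤
      2 ^ 2 * (((m : ℝ) + 1) * Real.log ((m : ℝ) + 2)) := by
    have h4 : (((m + m : ℕ) : ℝ) + 1) ≤ 2 * ((m : ℝ) + 1) := by push_cast; linarith
    have h5 : 0 ≤ Real.log (((m + m : ℕ) : ℝ) + 2) :=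
      Real.log_nonneg (by push_cast; linarith)
    calc (((m + m : ℕ) : ℝ) + 1) * Real.log (((m + m : ℕ) : ℝ) + 2) ≤
        (2 * ((m : ℝ) + 1)) * (2 * Real.log ((m : ℝ) + 2)) :=
          mul_le_mul h4 h1 h5 (by positivity)
      _ = _ := by ring
  have h6 := Real.sqrt_le_sqrt h3
  have e6 : Real.sqrt (2 ^ 2 * (((m : ℝ) + 1) * Real.log ((m : ℝ) + 2))) =
      2 * Real.sqrt (((m : ℝ) + 1) * Real.log ((m : ℝ) + 2)) := by
    rw [Real.sqrt_mul (by norm_num), Real.sqrt_sq (by norm_num)]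
  rw [e6] at h6
  have h7 := mul_le_mul_of_nonneg_left h6 hC
  have h8 : ((m + m : ℕ) : ℝ) = 2 * m := by push_cast; ring
  rw [h8] at h7 ⊢
  linarith

lemma attained (b : ℕ) (x : ℝ) (L : ℕ) :
    ∃ c : ℕ → ℚ, Recurrence (digit b x) c L (complexity b x L) := by
  refine Nat.sInf_mem (s := {m | ∃ c : ℕ → ℚ, Recurrence (digit b x) c L m}) ?_
  exact ⟨L, fun _ => 0, fun i h1 h2 => by omega⟩

lemma joint_attained (b : ℕ) (hb : 2 ≤ b) (x y : ℝ) (k L : ℕ) :
    ∃ (s s' : ℕ → ℤ) (c : ℕ → ℚ), (∀ i, |s i| ≤ b) ∧ (∀ i, |s' i| ≤ b) ∧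
    ((Icc 1 L).filter fun i => s i ≠ digit b x i ∨ s' i ≠ digit b y i).card ≤ k ∧
    Recurrence s c L (jointComplexity b x y k L) ∧
      Recurrence s' c L (jointComplexity b x y k L) := by
  refine Nat.sInf_mem (s := {m | ∃ (s s' : ℕ → ℤ) (c : ℕ → ℚ), (∀ i, |s i| ≤ b) ∧
    (∀ i, |s' i| ≤ b) ∧
    ((Icc 1 L).filter fun i => s i ≠ digit b x i ∨ s' i ≠ digit b y i).card ≤ k ∧
    Recurrence s c L m ∧ Recurrence s' c L m}) ?_
  exact ⟨L, digit b x, digit b y, fun _ => 0, dig_abs b hb x, dig_abs b hb y, by simp,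
    fun i h1 h2 => by omega, fun i h1 h2 => by omega⟩


lemma F_linear (C ε : ℝ) (hC : 0 < C) (hε : 0 < ε) :
    ∃ K : ℝ, 0 ≤ K ∧ ∀ m : ℕ, F C m ≤ (1 + ε) * m + K := by
  -- `C √(a b) ≤ (ε/2) a + C² b / (2 ε)` with `b = log (m + 2)`
  obtain ⟨δ, hδ⟩ : ∃ δ : ℝ, δ = ε ^ 2 / C ^ 2 := ⟨_, rfl⟩
  have hδ0 : 0 < δ := by rw [hδ]; positivity
  obtain ⟨K1, hK1⟩ : ∃ K1 : ℝ, K1 = |Real.log δ| := ⟨_, rfl⟩
  refine ⟨ε + 1 * ε + C ^ 2 / (2 * ε) * (|Real.log δ|), by positivity, fun m => ?_⟩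
  unfold F
  have hm : (0 : ℝ) ≤ m := Nat.cast_nonneg m
  obtain ⟨a, ha⟩ : ∃ a : ℝ, a = (m : ℝ) + 1 := ⟨_, rfl⟩
  obtain ⟨l, hl⟩ : ∃ l : ℝ, l = Real.log ((m : ℝ) + 2) := ⟨_, rfl⟩
  have hl0 : 0 ≤ l := by rw [hl]; exact Real.log_nonneg (by linarith)
  have ha0 : 0 < a := by rw [ha]; positivity
  rw [← ha, ← hl]
  have h1 : C * Real.sqrt (a * l) ≤ ε / 2 * a + C ^ 2 / (2 * ε) * l := by
    have h2 : 0 ≤ ε / 2 * a + C ^ 2 / (2 * ε) * l := by positivity
    have h3 : C * Real.sqrt (a * l) = Real.sqrt (C ^ 2 * (a * l)) := by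
      have e3 : Real.sqrt (C ^ 2 * (a * l)) = C * Real.sqrt (a * l) := by
        rw [Real.sqrt_mul (by positivity), Real.sqrt_sq hC.le]
      exact e3.symm
    rw [h3]
    apply Real.sqrt_le_iff.mpr
    refine ⟨h2, ?_⟩
    have h4 : (ε / 2 * a + C ^ 2 / (2 * ε) * l) ^ 2 - C ^ 2 * (a * l) =
        (ε / 2 * a - C ^ 2 / (2 * ε) * l) ^ 2 := by
      field_simp
      ring
    nlinarith [sq_nonneg (ε / 2 * a - C ^ 2 / (2 * ε) * l)]
  have h5 : l ≤ δ * ((m : ℝ) + 2) + |Real.log δ| := by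
    have h6 : Real.log (δ * ((m : ℝ) + 2)) ≤ δ * ((m : ℝ) + 2) - 1 :=
      Real.log_le_sub_one_of_pos (by positivity)
    rw [Real.log_mul hδ0.ne' (by positivity)] at h6
    have h7 := neg_abs_le (Real.log δ)
    rw [hl]
    linarith
  have h8 : C ^ 2 / (2 * ε) * l ≤ C ^ 2 / (2 * ε) * (δ * ((m : ℝ) + 2) + |Real.log δ|) :=
    mul_le_mul_of_nonneg_left h5 (by positivity)
  have h9 : C ^ 2 / (2 * ε) * (δ * ((m : ℝ) + 2)) = ε / 2 * ((m : ℝ) + 2) := by
    rw [hδ]
    field_simp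
  rw [mul_add, h9] at h8
  rw [ha] at h1 ⊢
  nlinarith


end Pool.Agent.Y39.DG
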