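import Pool.Agent.Y39.DG.Meas

/-!
# The exceptional points of a Möbius map over `ℚ(e)`
-/

set_option autoImplicit false

namespace Pool.Agent.Y39.DG

open Finset Polynomial

/-- The four polynomials are rational multiples of one polynomial, that is, the Möbius map
`x ↦ (α x + β) / (γ x + δ)` has rational coefficients. -/
def Constant (α β γ δ : ℤ[X]) : Prop :=
  ∃ (P : ℚ[X]) (a b c d : ℚ), α.map (Int.castRingHom ℚ) = C a * P ∧
    β.map (Int.castRingHom ℚ) = C b * P ∧ γ.map (Int.castRingHom ℚ) = C c * P ∧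
    δ.map (Int.castRingHom ℚ) = C d * P

/-- the exceptional points -/
def Exc (α β γ δ : ℤ[X]) : Set (ℚ × ℚ) :=
  {z | ∀ i, (γ.coeff i : ℚ) * (z.1 * z.2) + δ.coeff i * z.2 - α.coeff i * z.1 - β.coeff i = 0}

lemma exc_eq {α β γ δ : ℤ[X]} {z : ℚ × ℚ} (hz : z ∈ Exc α β γ δ) :
    γ.map (Int.castRingHom ℚ) * C (z.1 * z.2) + δ.map (Int.castRingHom ℚ) * C z.2 -
      α.map (Int.castRingHom ℚ) * C z.1 - β.map (Int.castRingHom ℚ) = 0 := by
  ext i
  have h := hz i
  simp only [coeff_sub, coeff_add, coeff_mul_C, coeff_map, coeff_zero]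
  simpa using h

lemma three (a b c d : ℚ[X]) (u1 v1 u2 v2 u3 v3 : ℚ)
    (h1 : c * C (u1 * v1) + d * C v1 - a * C u1 - b = 0)
    (h2 : c * C (u2 * v2) + d * C v2 - a * C u2 - b = 0)
    (h3 : c * C (u3 * v3) + d * C v3 - a * C u3 - b = 0)
    (hu : u1 ≠ u2) (hv12 : v1 ≠ v2) (hv13 : v1 ≠ v3) (hv23 : v2 ≠ v3) :
    ∃ (P : ℚ[X]) (a' b' c' d' : ℚ), a = C a' * P ∧ b = C b' * P ∧ c = C c' * P ∧ d = C d' * P := by
  obtain ⟨p, hp⟩ : ∃ p, p = v1 - v2 := ⟨_, rfl⟩
  obtain ⟨q, hq⟩ : ∃ q, q = v1 - v3 := ⟨_, rfl⟩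
  have hp0 : p ≠ 0 := by rw [hp]; exact sub_ne_zero.mpr hv12
  have hq0 : q ≠ 0 := by rw [hq]; exact sub_ne_zero.mpr hv13
  obtain ⟨A, hA⟩ : ∃ A, A = (u1 - u2) * q - (u1 - u3) * p := ⟨_, rfl⟩
  obtain ⟨B, hB⟩ : ∃ B, B = (u1 * v1 - u2 * v2) * q - (u1 * v1 - u3 * v3) * p := ⟨_, rfl⟩
  have hAB : c * C B = a * C A := by
    rw [hA, hB, hp, hq]
    simp only [C_sub, C_mul] at h1 h2 h3 ⊢
    linear_combination (C v1 - C v3) * (h1 - h2) - (C v1 - C v2) * (h1 - h3)
  have hd : d * C p = a * C (u1 - u2) - c * C (u1 * v1 - u2 * v2) := by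
    rw [hp]
    simp only [C_sub, C_mul] at h1 h2 ⊢
    linear_combination h1 - h2
  have hCp : C p * C p⁻¹ = (1 : ℚ[X]) := by
    rw [← C_mul, mul_inv_cancel₀ hp0, C_1]
  have hd' : d = (a * C (u1 - u2) - c * C (u1 * v1 - u2 * v2)) * C p⁻¹ := by
    rw [← hd, mul_assoc, hCp, mul_one]
  have hb : b = c * C (u1 * v1) + d * C v1 - a * C u1 := by linear_combination -h1
  by_cases hA0 : A = 0
  · rw [hA0, C_0, mul_zero] at hAB
    have hB0 : B ≠ 0 := by
      intro hB0
      -- `u1 - u2 = l p`, `u1 - u3 = l q`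
      obtain ⟨l, hl⟩ : ∃ l, l = (u1 - u2) / p := ⟨_, rfl⟩
      have e1 : u1 - u2 = l * p := by rw [hl, div_mul_cancel₀ _ hp0]
      have e2 : u1 - u3 = l * q := by
        have e3 : (u1 - u3) * p = (l * q) * p := by
          rw [hA] at hA0
          rw [e1] at hA0
          linear_combination -hA0
        exact mul_right_cancel₀ hp0 e3
      have hl0 : l ≠ 0 := by
        rintro rfl
        apply hu
        linear_combination e1
      have e4 : u2 = u1 - l * p := by linear_combination -e1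
      have e5 : u3 = u1 - l * q := by linear_combination -e2
      have e6 : v2 = v1 - p := by rw [hp]; ring
      have e7 : v3 = v1 - q := by rw [hq]; ring
      have e8 : B = l * p * q * (q - p) := by
        rw [hB, e4, e5, e6, e7]; ring
      rw [e8] at hB0
      have e9 : q - p ≠ 0 := by
        rw [hp, hq]
        intro h
        apply hv23
        linear_combination h
      exact mul_ne_zero (mul_ne_zero (mul_ne_zero hl0 hp0) hq0) e9 hB0
    have hc : c = 0 := by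
      rcases mul_eq_zero.mp hAB with h | h
      · exact h
      · exact absurd (C_eq_zero.mp h) hB0
    refine ⟨a, 1, (u1 - u2) * p⁻¹ * v1 - u1, 0, (u1 - u2) * p⁻¹, by simp, ?_, by simp [hc], ?_⟩
    · rw [hb, hd', hc]
      simp only [C_sub, C_mul]
      ring
    · rw [hd', hc]
      simp only [C_sub, C_mul]
      ring
  · have hCA : C A * C A⁻¹ = (1 : ℚ[X]) := by
      rw [← C_mul, mul_inv_cancel₀ hA0, C_1]
    have ha : a = c * C (B * A⁻¹) := by
      rw [C_mul, ← mul_assoc, hAB, mul_assoc, hCA, mul_one]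
    refine ⟨c, B * A⁻¹, u1 * v1 + ((B * A⁻¹) * (u1 - u2) - (u1 * v1 - u2 * v2)) * p⁻¹ * v1 -
      (B * A⁻¹) * u1, 1, ((B * A⁻¹) * (u1 - u2) - (u1 * v1 - u2 * v2)) * p⁻¹, ?_, ?_, by simp, ?_⟩
    · rw [mul_comm]; exact ha
    · rw [hb, hd', ha]
      simp only [C_sub, C_mul, C_add]
      ring
    · rw [hd', ha]
      simp only [C_sub, C_mul, C_add]
      ring

theorem exc_finite (α β γ δ : ℤ[X]) (hdet : α * δ ≠ β * γ) (hc : ¬ Constant α β γ δ) :
    (Exc α β γ δ).Finite := by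
  by_contra hinf
  obtain ⟨T, hT, hT3⟩ := Set.Infinite.exists_subset_card_eq hinf 3
  obtain ⟨z1, z2, z3, h12, h13, h23, rfl⟩ := Finset.card_eq_three.mp hT3
  have hz1 : z1 ∈ Exc α β γ δ := hT (by simp)
  have hz2 : z2 ∈ Exc α β γ δ := hT (by simp)
  have hz3 : z3 ∈ Exc α β γ δ := hT (by simp)
  obtain ⟨a, ha⟩ : ∃ a, a = α.map (Int.castRingHom ℚ) := ⟨_, rfl⟩
  obtain ⟨b, hb⟩ : ∃ b, b = β.map (Int.castRingHom ℚ) := ⟨_, rfl⟩
  obtain ⟨c, hcc⟩ : ∃ c, c = γ.map (Int.castRingHom ℚ) := ⟨_, rfl⟩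
  obtain ⟨d, hd⟩ : ∃ d, d = δ.map (Int.castRingHom ℚ) := ⟨_, rfl⟩
  have hdet' : a * d ≠ b * c := by
    rw [ha, hb, hcc, hd, ← Polynomial.map_mul, ← Polynomial.map_mul]
    intro h
    exact hdet (Polynomial.map_injective _ (by intro m n h; simpa using h) h)
  have key : ∀ z z' : ℚ × ℚ, z ∈ Exc α β γ δ → z' ∈ Exc α β γ δ → z ≠ z' →
      z.1 ≠ z'.1 ∧ z.2 ≠ z'.2 := by
    intro z z' hz hz' hne
    have h1 := exc_eq hz
    have h2 := exc_eq hz'
    rw [← ha, ← hb, ← hcc, ← hd] at h1 h2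
    constructor
    · intro hu
      have hv : z.2 ≠ z'.2 := fun hv => hne (Prod.ext hu hv)
      rw [← hu] at h2
      simp only [C_mul] at h1 h2
      have h3 : (c * C z.1 + d) * (C z.2 - C z'.2) = 0 := by linear_combination h1 - h2
      have h4 : c * C z.1 + d = 0 := by
        rcases mul_eq_zero.mp h3 with h | h
        · exact h
        · rw [← C_sub, C_eq_zero] at h
          exact absurd (sub_eq_zero.mp h) hv
      apply hdet'
      linear_combination a * h4 + c * h1 - c * C z.2 * h4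
    · intro hv
      have hu : z.1 ≠ z'.1 := fun hu => hne (Prod.ext hu hv)
      rw [← hv] at h2
      simp only [C_mul] at h1 h2
      have h3 : (c * C z.2 - a) * (C z.1 - C z'.1) = 0 := by linear_combination h1 - h2
      have h4 : c * C z.2 - a = 0 := by
        rcases mul_eq_zero.mp h3 with h | h
        · exact h
        · rw [← C_sub, C_eq_zero] at h
          exact absurd (sub_eq_zero.mp h) hu
      apply hdet'
      linear_combination -d * h4 + c * h1 - c * C z.1 * h4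
  have k12 := key z1 z2 hz1 hz2 h12
  have k13 := key z1 z3 hz1 hz3 h13
  have k23 := key z2 z3 hz2 hz3 h23
  have h1 := exc_eq hz1
  have h2 := exc_eq hz2
  have h3 := exc_eq hz3
  obtain ⟨P, a', b', c', d', e1, e2, e3, e4⟩ := three _ _ _ _ _ _ _ _ _ _ h1 h2 h3 k12.1 k12.2
    k13.2 k23.2
  exact hc ⟨P, a', b', c', d', e1, e2, e3, e4⟩

lemma far (x y : ℝ) (T : Finset (ℚ × ℚ)) (h : ∀ z ∈ T, ¬ (x = z.1 ∧ y = z.2)) :
    ∃ c : ℝ, 0 < c ∧ ∀ z ∈ T, c ≤ max |x - z.1| |y - z.2| := by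
  classical
  induction T using Finset.induction_on with
  | empty => exact ⟨1, one_pos, fun z hz => absurd hz (Finset.notMem_empty z)⟩
  | insert w T _ ih =>
    obtain ⟨c, hc, hcT⟩ := ih fun z hz => h z (Finset.mem_insert_of_mem hz)
    have hw := h w (Finset.mem_insert_self w T)
    have hw0 : 0 < max |x - w.1| |y - w.2| := by
      by_contra hcon
      push Not at hcon
      apply hw
      have h1 := (le_max_left |x - w.1| |y - w.2|).trans hcon
      have h2 := (le_max_right |x - w.1| |y - w.2|).trans hcon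
      exact ⟨sub_eq_zero.mp (abs_nonpos_iff.mp h1), sub_eq_zero.mp (abs_nonpos_iff.mp h2)⟩
    refine ⟨min c (max |x - w.1| |y - w.2|), lt_min hc hw0, fun z hz => ?_⟩
    rcases Finset.mem_insert.mp hz with rfl | hz
    · exact min_le_right _ _
    · exact (min_le_left _ _).trans (hcT z hz)

lemma far_scaled (x u : ℝ) (q : ℕ) (hq : 1 ≤ q) (c : ℝ) (hc : 0 ≤ c) (p : ℤ)
    (hu : u = (p : ℝ) / q) (h : c ≤ |x - u|) : c ≤ |q * x - p| := by
  have hqR : (1 : ℝ) ≤ q := by exact_mod_cast hq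
  have h1 : q * x - p = q * (x - u) := by
    rw [hu, mul_sub, mul_div_cancel₀ _ (by linarith : (q : ℝ) ≠ 0)]
  rw [h1, abs_mul, abs_of_nonneg (by linarith : (0 : ℝ) ≤ q)]
  nlinarith [abs_nonneg (x - u)]

/-- the distance from the exceptional points -/
theorem exc_far (α β γ δ : ℤ[X]) (hdet : α * δ ≠ β * γ) (hc : ¬ Constant α β γ δ) (x y : ℝ)
    (hxy : Irrational x ∨ Irrational y) :
    ∃ c : ℝ, 0 < c ∧ ∀ (p r : ℤ) (q : ℕ), 1 ≤ q → Bil α β γ δ p r q = 0 →
      c ≤ max |q * x - p| |q * y - r| := by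
  obtain ⟨c, hc0, hcT⟩ := far x y (exc_finite α β γ δ hdet hc).toFinset (by
    rintro z _ ⟨h1, h2⟩
    rcases hxy with h | h
    · exact h ⟨z.1, h1.symm⟩
    · exact h ⟨z.2, h2.symm⟩)
  refine ⟨c, hc0, fun p r q hq h => ?_⟩
  have hq0 : (q : ℚ) ≠ 0 := by
    have : (q : ℚ) ≠ 0 := by exact_mod_cast (by omega : q ≠ 0)
    exact this
  have hz : ((p : ℚ) / q, (r : ℚ) / q) ∈ Exc α β γ δ := by
    intro i
    have h1 : (Bil α β γ δ p r q).coeff i = 0 := by rw [h]; simp
    rw [Bil_coeff] at h1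
    have h2 : (γ.coeff i : ℚ) * (p * r) + δ.coeff i * (r * q) - α.coeff i * (p * q) -
        β.coeff i * q ^ 2 = 0 := by exact_mod_cast h1
    dsimp only
    field_simp
    linear_combination h2
  have h3 := hcT _ ((exc_finite α β γ δ hdet hc).mem_toFinset.mpr hz)
  dsimp only at h3
  rcases le_max_iff.mp h3 with h4 | h4
  · exact (far_scaled x _ q hq c hc0.le p (by push_cast; rfl) h4).trans (le_max_left _ _)
  · exact (far_scaled y _ q hq c hc0.le r (by push_cast; rfl) h4).trans (le_max_right _ _)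

end Pool.Agent.Y39.DG
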