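import Pool.Agent.Y39.DG.Basic

/-!
# Joint measures of approximation for two numbers related by a Möbius map over `ℚ(e)`
-/

set_option autoImplicit false

namespace Pool.Agent.Y39.DG

open Finset Polynomial

/-- the value of an integer polynomial at `e` -/
noncomputable def ev (P : ℤ[X]) : ℝ := aeval (Real.exp 1) P

lemma ev_eq (P : ℤ[X]) (S : Finset ℕ) (h : P.support ⊆ S) :
    ev P = ∑ i ∈ S, (P.coeff i : ℝ) * Real.exp 1 ^ i := by
  unfold ev
  rw [aeval_def, eval₂_eq_sum, sum_def]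
  refine Finset.sum_subset h fun i _ hi => ?_
  rw [notMem_support_iff.mp hi]
  simp

/-- the measure of linear independence for the powers of `e` with exponents in `S` -/
theorem poly_meas (S : Finset ℕ) (n : ℕ) (hn : S.card = n + 1) (η : ℝ) (hη : 0 < η) :
    ∃ c : ℝ, 0 < c ∧ ∀ P : ℤ[X], P.support ⊆ S → P ≠ 0 → ∀ H : ℝ, 1 ≤ H →
      (∀ i, |(P.coeff i : ℝ)| ≤ H) → c ≤ H ^ ((n : ℝ) + η) * |ev P| := by
  obtain ⟨f, hf⟩ : ∃ f : Fin (n + 1) → ℕ, f = S.orderEmbOfFin hn := ⟨_, rfl⟩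
  have hfm : StrictMono f := by rw [hf]; exact (S.orderEmbOfFin hn).strictMono
  have hfS : ∀ j, f j ∈ S := by
    intro j; rw [hf]; exact Finset.orderEmbOfFin_mem S hn j
  have hf0 : ∀ j, f 0 ≤ f j := fun j => hfm.monotone (Fin.zero_le j)
  obtain ⟨c, hc, hM⟩ := Pool.Agent.W472.AC.e_meas n (fun j => (f j : ℤ) - f 0)
    (by
      intro i j h
      have h1 : (f i : ℤ) - f 0 = f j - f 0 := h
      have h2 : f i = f j := by omega
      exact hfm.injective h2) (by simp)
    (by intro j; have := hf0 j; omega) η hη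
  refine ⟨c, hc, fun P hP hP0 H hH hb => ?_⟩
  have h1 := hM (fun j => P.coeff (f j)) (by
    intro h0
    apply hP0
    ext i
    rw [coeff_zero]
    by_contra hi
    have hiS : i ∈ S := hP (mem_support_iff.mpr hi)
    obtain ⟨j, hj⟩ : ∃ j, f j = i := by
      have h2 : i ∈ Set.range (S.orderEmbOfFin hn) := by
        rw [Finset.range_orderEmbOfFin]; exact hiS
      obtain ⟨j, hj⟩ := h2
      exact ⟨j, by rw [hf]; exact hj⟩
    apply hi
    rw [← hj]
    exact congrFun h0 j) H hH (fun j => hb _)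
  have h2 : ev P = Real.exp (f 0) * ∑ j, (P.coeff (f j) : ℝ) * Real.exp (((f j : ℤ) - f 0 : ℤ)) := by
    rw [ev_eq P S hP, Finset.mul_sum]
    have h3 : ∑ i ∈ S, (P.coeff i : ℝ) * Real.exp 1 ^ i =
        ∑ j, (P.coeff (f j) : ℝ) * Real.exp 1 ^ (f j) := by
      symm
      refine Finset.sum_bij (fun j _ => f j) (fun j _ => hfS j)
        (fun i _ j _ h => hfm.injective h) (fun i hi => ?_) (fun j _ => rfl)
      have h2 : i ∈ Set.range (S.orderEmbOfFin hn) := by
        rw [Finset.range_orderEmbOfFin]; exact hi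
      obtain ⟨j, hj⟩ := h2
      exact ⟨j, mem_univ _, by rw [hf]; exact hj⟩
    rw [h3]
    refine Finset.sum_congr rfl fun j _ => ?_
    rw [← Real.exp_nat_mul, mul_one, mul_left_comm, ← Real.exp_add]
    congr 2
    push_cast
    ring
  rw [h2, abs_mul, abs_of_pos (Real.exp_pos _)]
  have h3 : (1 : ℝ) ≤ Real.exp (f 0) := Real.one_le_exp (Nat.cast_nonneg _)
  have h4 : 0 ≤ H ^ ((n : ℝ) + η) := Real.rpow_nonneg (by linarith) _
  refine h1.trans (mul_le_mul_of_nonneg_left ?_ h4)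
  exact le_mul_of_one_le_left (abs_nonneg _) h3

/-- The general lemma. -/
theorem meas_of (S : Finset ℕ) (n s : ℕ) (hn : S.card = n + 1) (hs : 1 ≤ s) (η : ℝ) (hη : 0 < η)
    (x y : ℝ) (Φ : ℤ → ℤ → ℕ → ℤ[X]) (hS : ∀ p r q, (Φ p r q).support ⊆ S)
    (K c1 : ℝ) (hK : 1 ≤ K) (hc1 : 0 < c1)
    (hΦ : ∀ (p r : ℤ) (q : ℕ), 1 ≤ q → ∀ δ : ℝ, δ ≤ 1 → |q * x - p| ≤ δ → |q * y - r| ≤ δ →
      (∀ i, |((Φ p r q).coeff i : ℝ)| ≤ K * (q : ℝ) ^ s) ∧
      |ev (Φ p r q)| ≤ K * (q : ℝ) ^ (s - 1) * δ ∧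
      (Φ p r q = 0 → c1 ≤ δ)) :
    ∃ c0 : ℝ, 0 < c0 ∧ ∀ q : ℕ, 1 ≤ q → ∀ p : Fin 2 → ℤ, ∃ j : Fin 2,
      c0 ≤ (q : ℝ) ^ ((s : ℝ) * (n + 1 + η) - 1) * |q * (![x, y] j) - p j| := by
  obtain ⟨c, hc, hM⟩ := poly_meas S n hn η hη
  have hKp : 0 < K ^ ((n : ℝ) + 1 + η) := Real.rpow_pos_of_pos (by linarith) _
  refine ⟨min (min 1 c1) (c / K ^ ((n : ℝ) + 1 + η)) / 2, by positivity, fun q hq p => ?_⟩
  obtain ⟨c0, hc0⟩ : ∃ c0, c0 = min (min 1 c1) (c / K ^ ((n : ℝ) + 1 + η)) := ⟨_, rfl⟩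
  rw [← hc0]
  have hc00 : 0 < c0 := by rw [hc0]; positivity
  have hc01 : c0 ≤ 1 := by rw [hc0]; exact (min_le_left _ _).trans (min_le_left _ _)
  have hc02 : c0 ≤ c1 := by rw [hc0]; exact (min_le_left _ _).trans (min_le_right _ _)
  have hc03 : c0 ≤ c / K ^ ((n : ℝ) + 1 + η) := by rw [hc0]; exact min_le_right _ _
  by_contra hcon
  push Not at hcon
  have h0 := hcon 0
  have h1 := hcon 1
  simp only [Matrix.cons_val_zero, Matrix.cons_val_one] at h0 h1
  have hqR : (1 : ℝ) ≤ q := by exact_mod_cast hq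
  have hsR : (1 : ℝ) ≤ s := by exact_mod_cast hs
  have hn0 : (0 : ℝ) ≤ n := Nat.cast_nonneg n
  obtain ⟨Q, hQ⟩ : ∃ Q : ℝ, Q = (q : ℝ) ^ ((s : ℝ) * (n + 1 + η) - 1) := ⟨_, rfl⟩
  have hQ1 : 1 ≤ Q := by
    rw [hQ]
    apply Real.one_le_rpow hqR
    nlinarith
  rw [← hQ] at h0 h1
  obtain ⟨δ, hδ⟩ : ∃ δ : ℝ, δ = max |q * x - p 0| |q * y - p 1| := ⟨_, rfl⟩
  have hδ1 : Q * δ < c0 / 2 := by
    rw [hδ]
    rcases max_choice |q * x - p 0| |q * y - p 1| with h | h <;> rw [h] <;> assumption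
  have hδ0 : 0 ≤ δ := by rw [hδ]; exact (abs_nonneg _).trans (le_max_left _ _)
  have hδ2 : δ ≤ Q * δ := le_mul_of_one_le_left hδ0 hQ1
  obtain ⟨k1, k2, k3⟩ := hΦ (p 0) (p 1) q hq δ (by linarith) (by rw [hδ]; exact le_max_left _ _)
    (by rw [hδ]; exact le_max_right _ _)
  have hne : Φ (p 0) (p 1) q ≠ 0 := by
    intro h
    have := k3 h
    linarith
  have hqs : (1 : ℝ) ≤ (q : ℝ) ^ s := one_le_pow₀ hqR
  have k4 := hM _ (hS _ _ _) hne (K * (q : ℝ) ^ s) (by nlinarith) k1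
  have k5 : (K * (q : ℝ) ^ s) ^ ((n : ℝ) + η) * |ev (Φ (p 0) (p 1) q)| ≤
      (K * (q : ℝ) ^ s) ^ ((n : ℝ) + η) * (K * (q : ℝ) ^ (s - 1) * δ) :=
    mul_le_mul_of_nonneg_left k2 (Real.rpow_nonneg (by positivity) _)
  have k6 : (K * (q : ℝ) ^ s) ^ ((n : ℝ) + η) * (K * (q : ℝ) ^ (s - 1) * δ) =
      K ^ ((n : ℝ) + 1 + η) * (Q * δ) := by
    have hK0 : 0 < K := by linarith
    have hq0 : 0 < (q : ℝ) := by linarith
    rw [Real.mul_rpow hK0.le (by positivity), hQ]
    have e1 : K ^ ((n : ℝ) + 1 + η) = K ^ ((n : ℝ) + η) * K := by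
      rw [show (n : ℝ) + 1 + η = (n + η) + 1 by ring, Real.rpow_add hK0, Real.rpow_one]
    have e2 : (q : ℝ) ^ ((s : ℝ) * (n + 1 + η) - 1) =
        ((q : ℝ) ^ s) ^ ((n : ℝ) + η) * (q : ℝ) ^ (s - 1) := by
      rw [← Real.rpow_natCast, ← Real.rpow_natCast, ← Real.rpow_mul hq0.le, ← Real.rpow_add hq0,
        Nat.cast_sub hs]
      congr 1
      push_cast
      ring
    rw [e1, e2]
    ring
  rw [k6] at k5
  have k7 : c ≤ K ^ ((n : ℝ) + 1 + η) * (Q * δ) := k4.trans k5
  rw [le_div_iff₀ hKp] at hc03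
  nlinarith

/-! ### the forms -/

/-- the sum of the absolute values of the coefficients -/
noncomputable def len (P : ℤ[X]) : ℝ := ∑ i ∈ P.support, |(P.coeff i : ℝ)|

lemma len_nonneg (P : ℤ[X]) : 0 ≤ len P := Finset.sum_nonneg fun _ _ => abs_nonneg _

lemma coeff_le_len (P : ℤ[X]) (i : ℕ) : |(P.coeff i : ℝ)| ≤ len P := by
  by_cases h : i ∈ P.support
  · exact Finset.single_le_sum (f := fun i => |(P.coeff i : ℝ)|) (fun _ _ => abs_nonneg _) h
  · rw [notMem_support_iff.mp h]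
    simpa using len_nonneg P

/-- the affine form -/
noncomputable def Aff (α β δ : ℤ[X]) (p r : ℤ) (q : ℕ) : ℤ[X] :=
  δ * C r - α * C p - β * C (q : ℤ)

/-- the bilinear form -/
noncomputable def Bil (α β γ δ : ℤ[X]) (p r : ℤ) (q : ℕ) : ℤ[X] :=
  γ * C (p * r) + δ * C (r * q) - α * C (p * q) - β * C ((q : ℤ) ^ 2)

lemma Aff_coeff (α β δ : ℤ[X]) (p r : ℤ) (q i : ℕ) : (Aff α β δ p r q).coeff i =
    δ.coeff i * r - α.coeff i * p - β.coeff i * q := by
  unfold Aff
  simp only [coeff_sub, coeff_mul_C]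

lemma Bil_coeff (α β γ δ : ℤ[X]) (p r : ℤ) (q i : ℕ) : (Bil α β γ δ p r q).coeff i =
    γ.coeff i * (p * r) + δ.coeff i * (r * q) - α.coeff i * (p * q) - β.coeff i * q ^ 2 := by
  unfold Bil
  simp only [coeff_sub, coeff_add, coeff_mul_C]

lemma Aff_ev (α β δ : ℤ[X]) (p r : ℤ) (q : ℕ) : ev (Aff α β δ p r q) =
    ev δ * r - ev α * p - ev β * q := by
  unfold Aff ev
  simp

lemma Bil_ev (α β γ δ : ℤ[X]) (p r : ℤ) (q : ℕ) : ev (Bil α β γ δ p r q) =
    ev γ * (p * r) + ev δ * (r * q) - ev α * (p * q) - ev β * q ^ 2 := by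
  unfold Bil ev
  simp

/-- `|p| ≤ (|x| + 1) q` if `|q x - p| ≤ 1` -/
lemma num_le (x : ℝ) (p : ℤ) (q : ℕ) (hq : 1 ≤ q) (h : |q * x - p| ≤ 1) :
    |(p : ℝ)| ≤ (|x| + 1) * q := by
  have hqR : (1 : ℝ) ≤ q := by exact_mod_cast hq
  have h1 : |(p : ℝ)| ≤ |q * x| + |q * x - p| := by
    have h2 := abs_sub (q * x) (q * x - p)
    rwa [sub_sub_cancel] at h2
  rw [abs_mul, abs_of_nonneg (by linarith : (0 : ℝ) ≤ q)] at h1
  nlinarith

/-- The measure for an affine relation `δ(e) y = α(e) x + β(e)`. -/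
theorem aff_meas (α β δ : ℤ[X]) (S : Finset ℕ) (n : ℕ) (hn : S.card = n + 1)
    (hα : α.support ⊆ S) (hβ : β.support ⊆ S) (hδ : δ.support ⊆ S) (η : ℝ) (hη : 0 < η)
    (x y : ℝ) (hxy : ev δ * y = ev α * x + ev β) (c1 : ℝ) (hc1 : 0 < c1)
    (hex : ∀ (p r : ℤ) (q : ℕ), 1 ≤ q → Aff α β δ p r q = 0 →
      c1 ≤ max |q * x - p| |q * y - r|) :
    ∃ c0 : ℝ, 0 < c0 ∧ ∀ q : ℕ, 1 ≤ q → ∀ p : Fin 2 → ℤ, ∃ j : Fin 2,
      c0 ≤ (q : ℝ) ^ ((n : ℝ) + 1 + η - 1) * |q * (![x, y] j) - p j| := by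
  obtain ⟨A, hA⟩ : ∃ A : ℝ, A = len α + len β + len δ + |ev α| + |ev δ| + 1 := ⟨_, rfl⟩
  have a1 := len_nonneg α
  have a2 := len_nonneg β
  have a3 := len_nonneg δ
  have a4 := abs_nonneg (ev α)
  have a5 := abs_nonneg (ev δ)
  have hA1 : 1 ≤ A := by rw [hA]; linarith
  have hx0 := abs_nonneg x
  have hy0 := abs_nonneg y
  obtain ⟨c0, hc0, h⟩ := meas_of S n 1 hn le_rfl η hη x y (Aff α β δ)
    (by
      intro p r q i hi
      rw [mem_support_iff] at hi
      by_contra hiS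
      apply hi
      rw [Aff_coeff, notMem_support_iff.mp fun h => hiS (hα h),
        notMem_support_iff.mp fun h => hiS (hβ h), notMem_support_iff.mp fun h => hiS (hδ h)]
      ring)
    (A * (|x| + |y| + 1)) c1 (by nlinarith) hc1 (by
      intro p r q hq d hd h1 h2
      have hqR : (1 : ℝ) ≤ q := by exact_mod_cast hq
      have hp := num_le x p q hq (h1.trans hd)
      have hr := num_le y r q hq (h2.trans hd)
      refine ⟨fun i => ?_, ?_, ?_⟩
      · rw [Aff_coeff]
        push_cast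
        have b1 := coeff_le_len α i
        have b2 := coeff_le_len β i
        have b3 := coeff_le_len δ i
        have e1 : |(δ.coeff i : ℝ) * r - α.coeff i * p - β.coeff i * q| ≤
            len δ * ((|y| + 1) * q) + len α * ((|x| + 1) * q) + len β * q := by
          refine (abs_sub _ _).trans (add_le_add ((abs_sub _ _).trans (add_le_add ?_ ?_)) ?_)
          · rw [abs_mul]
            exact mul_le_mul b3 hr (abs_nonneg _) a3
          · rw [abs_mul]
            exact mul_le_mul b1 hp (abs_nonneg _) a1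
          · rw [abs_mul, abs_of_nonneg (by linarith : (0 : ℝ) ≤ q)]
            exact mul_le_mul_of_nonneg_right b2 (by linarith)
        refine e1.trans ?_
        rw [pow_one]
        have e2 : len δ * ((|y| + 1) * q) + len α * ((|x| + 1) * q) + len β * q =
            (len δ * (|y| + 1) + len α * (|x| + 1) + len β) * q := by ring
        rw [e2]
        refine mul_le_mul_of_nonneg_right ?_ (by linarith)
        rw [hA]
        nlinarith [mul_nonneg a3 hx0, mul_nonneg a1 hy0, mul_nonneg a2 hx0, mul_nonneg a2 hy0,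
          mul_nonneg a4 hx0, mul_nonneg a4 hy0, mul_nonneg a5 hx0, mul_nonneg a5 hy0]
      · rw [Aff_ev]
        have e1 : ev δ * r - ev α * p - ev β * q =
            ev α * (q * x - p) - ev δ * (q * y - r) := by
          linear_combination (q : ℝ) * hxy
        rw [e1]
        have hd0 : 0 ≤ d := (abs_nonneg _).trans h1
        have e2 : |ev α * (q * x - p) - ev δ * (q * y - r)| ≤ |ev α| * d + |ev δ| * d := by
          refine (abs_sub _ _).trans (add_le_add ?_ ?_)
          · rw [abs_mul]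
            exact mul_le_mul_of_nonneg_left h1 a4
          · rw [abs_mul]
            exact mul_le_mul_of_nonneg_left h2 a5
        refine e2.trans ?_
        rw [Nat.sub_self, pow_zero, mul_one, ← add_mul]
        refine mul_le_mul_of_nonneg_right ?_ hd0
        rw [hA]
        nlinarith [mul_nonneg a3 hx0, mul_nonneg a1 hy0, mul_nonneg a2 hx0, mul_nonneg a2 hy0,
          mul_nonneg a4 hx0, mul_nonneg a4 hy0, mul_nonneg a5 hx0, mul_nonneg a5 hy0,
          mul_nonneg a1 hx0, mul_nonneg a3 hy0]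
      · intro h
        exact (hex p r q hq h).trans (max_le h1 h2))
  refine ⟨c0, hc0, fun q hq p => ?_⟩
  obtain ⟨j, hj⟩ := h q hq p
  refine ⟨j, ?_⟩
  rwa [Nat.cast_one, one_mul] at hj

/-- The measure for a bilinear relation `(γ(e) x + δ(e)) y = α(e) x + β(e)`. -/
theorem bil_meas (α β γ δ : ℤ[X]) (S : Finset ℕ) (n : ℕ) (hn : S.card = n + 1)
    (hα : α.support ⊆ S) (hβ : β.support ⊆ S) (hγ : γ.support ⊆ S) (hδ : δ.support ⊆ S)
    (η : ℝ) (hη : 0 < η)
    (x y : ℝ) (hxy : (ev γ * x + ev δ) * y = ev α * x + ev β) (c1 : ℝ) (hc1 : 0 < c1)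
    (hex : ∀ (p r : ℤ) (q : ℕ), 1 ≤ q → Bil α β γ δ p r q = 0 →
      c1 ≤ max |q * x - p| |q * y - r|) :
    ∃ c0 : ℝ, 0 < c0 ∧ ∀ q : ℕ, 1 ≤ q → ∀ p : Fin 2 → ℤ, ∃ j : Fin 2,
      c0 ≤ (q : ℝ) ^ (2 * ((n : ℝ) + 1 + η) - 1) * |q * (![x, y] j) - p j| := by
  obtain ⟨A, hA⟩ : ∃ A : ℝ, A = len α + len β + len γ + len δ + |ev α| + 2 * |ev γ| + |ev δ| + 1 :=
    ⟨_, rfl⟩
  have a1 := len_nonneg α
  have a2 := len_nonneg β
  have a3 := len_nonneg δ
  have a4 := abs_nonneg (ev α)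
  have a5 := abs_nonneg (ev δ)
  have a6 := len_nonneg γ
  have a7 := abs_nonneg (ev γ)
  have hA1 : 1 ≤ A := by rw [hA]; linarith
  have hx0 := abs_nonneg x
  have hy0 := abs_nonneg y
  obtain ⟨B, hB⟩ : ∃ B : ℝ, B = |x| + |y| + 1 := ⟨_, rfl⟩
  have hB1 : 1 ≤ B := by rw [hB]; linarith
  have hB2 : 1 ≤ B * B := by nlinarith
  have hxB : |x| + 1 ≤ B := by rw [hB]; linarith
  have hyB : |y| + 1 ≤ B := by rw [hB]; linarith
  obtain ⟨c0, hc0, h⟩ := meas_of S n 2 hn one_le_two η hη x y (Bil α β γ δ)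
    (by
      intro p r q i hi
      rw [mem_support_iff] at hi
      by_contra hiS
      apply hi
      rw [Bil_coeff, notMem_support_iff.mp fun h => hiS (hα h),
        notMem_support_iff.mp fun h => hiS (hβ h), notMem_support_iff.mp fun h => hiS (hδ h),
        notMem_support_iff.mp fun h => hiS (hγ h)]
      ring)
    (A * (B * B)) c1 (by nlinarith) hc1 (by
      intro p r q hq d hd h1 h2
      have hqR : (1 : ℝ) ≤ q := by exact_mod_cast hq
      have hq0 : (0 : ℝ) ≤ q := by linarith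
      have hp : |(p : ℝ)| ≤ B * q :=
        (num_le x p q hq (h1.trans hd)).trans (mul_le_mul_of_nonneg_right hxB hq0)
      have hr : |(r : ℝ)| ≤ B * q :=
        (num_le y r q hq (h2.trans hd)).trans (mul_le_mul_of_nonneg_right hyB hq0)
      have hqB : |(q : ℝ)| ≤ B * q := by
        rw [abs_of_nonneg hq0]; exact le_mul_of_one_le_left hq0 hB1
      have hBq : 0 ≤ B * q := by positivity
      refine ⟨fun i => ?_, ?_, ?_⟩
      · rw [Bil_coeff]
        push_cast
        have b1 := coeff_le_len α i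
        have b2 := coeff_le_len β i
        have b3 := coeff_le_len δ i
        have b4 := coeff_le_len γ i
        have e1 : |(γ.coeff i : ℝ) * (p * r) + δ.coeff i * (r * q) - α.coeff i * (p * q) -
            β.coeff i * q ^ 2| ≤
            len γ * ((B * q) * (B * q)) + len δ * ((B * q) * (B * q)) +
              len α * ((B * q) * (B * q)) + len β * ((B * q) * (B * q)) := by
          refine (abs_sub _ _).trans (add_le_add ((abs_sub _ _).trans (add_le_add
            ((abs_add_le _ _).trans (add_le_add ?_ ?_)) ?_)) ?_)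
          · rw [abs_mul, abs_mul]
            exact mul_le_mul b4 (mul_le_mul hp hr (abs_nonneg _) hBq) (by positivity) a6
          · rw [abs_mul, abs_mul]
            exact mul_le_mul b3 (mul_le_mul hr hqB (abs_nonneg _) hBq) (by positivity) a3
          · rw [abs_mul, abs_mul]
            exact mul_le_mul b1 (mul_le_mul hp hqB (abs_nonneg _) hBq) (by positivity) a1
          · rw [abs_mul, sq, abs_mul]
            exact mul_le_mul b2 (mul_le_mul hqB hqB (abs_nonneg _) hBq) (by positivity) a2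
        refine e1.trans ?_
        have e2 : len γ * ((B * q) * (B * q)) + len δ * ((B * q) * (B * q)) +
              len α * ((B * q) * (B * q)) + len β * ((B * q) * (B * q)) =
            (len γ + len δ + len α + len β) * (B * B) * (q : ℝ) ^ 2 := by ring
        rw [e2]
        refine mul_le_mul_of_nonneg_right (mul_le_mul_of_nonneg_right ?_ (by positivity))
          (by positivity)
        rw [hA]
        linarith
      · rw [Bil_ev]
        have hd0 : 0 ≤ d := (abs_nonneg _).trans h1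
        obtain ⟨u, hu⟩ : ∃ u : ℝ, u = q * x - p := ⟨_, rfl⟩
        obtain ⟨v, hv⟩ : ∃ v : ℝ, v = q * y - r := ⟨_, rfl⟩
        rw [← hu] at h1
        rw [← hv] at h2
        have hpu : (p : ℝ) = q * x - u := by rw [hu]; ring
        have hrv : (r : ℝ) = q * y - v := by rw [hv]; ring
        have e1 : ev γ * (p * r) + ev δ * (r * q) - ev α * (p * q) - ev β * q ^ 2 =
            ev α * (u * q) - ev δ * (v * q) - ev γ * (u * r) - ev γ * (v * (q * x)) := by
          have e3 : ev γ * (p * r) = ev γ * ((q * x) * (q * y)) - ev γ * (u * r) -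
              ev γ * (v * (q * x)) := by
            rw [hpu, hrv]; ring
          rw [e3, hpu, hrv]
          linear_combination (q : ℝ) ^ 2 * hxy
        rw [e1]
        have hxq : |(q : ℝ) * x| ≤ B * q := by
          rw [abs_mul, abs_of_nonneg hq0, mul_comm]
          exact mul_le_mul_of_nonneg_right (by linarith) hq0
        have e2 : |ev α * (u * q) - ev δ * (v * q) - ev γ * (u * r) - ev γ * (v * (q * x))| ≤
            |ev α| * (d * (B * q)) + |ev δ| * (d * (B * q)) + |ev γ| * (d * (B * q)) +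
              |ev γ| * (d * (B * q)) := by
          refine (abs_sub _ _).trans (add_le_add ((abs_sub _ _).trans (add_le_add
            ((abs_sub _ _).trans (add_le_add ?_ ?_)) ?_)) ?_)
          · rw [abs_mul, abs_mul]
            exact mul_le_mul_of_nonneg_left (mul_le_mul h1 hqB (abs_nonneg _) hd0) a4
          · rw [abs_mul, abs_mul]
            exact mul_le_mul_of_nonneg_left (mul_le_mul h2 hqB (abs_nonneg _) hd0) a5
          · rw [abs_mul, abs_mul]
            exact mul_le_mul_of_nonneg_left (mul_le_mul h1 hr (abs_nonneg _) hd0) a7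
          · rw [abs_mul, abs_mul]
            exact mul_le_mul_of_nonneg_left (mul_le_mul h2 hxq (abs_nonneg _) hd0) a7
        refine e2.trans ?_
        rw [show (2 : ℕ) - 1 = 1 from rfl, pow_one]
        have e4 : |ev α| * (d * (B * q)) + |ev δ| * (d * (B * q)) + |ev γ| * (d * (B * q)) +
              |ev γ| * (d * (B * q)) = ((|ev α| + |ev δ| + 2 * |ev γ|) * B) * q * d := by ring
        rw [e4]
        refine mul_le_mul_of_nonneg_right (mul_le_mul_of_nonneg_right ?_ hq0) hd0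
        have e5 : (|ev α| + |ev δ| + 2 * |ev γ|) ≤ A := by rw [hA]; linarith
        have e6 : B ≤ B * B := le_mul_of_one_le_left (by linarith) hB1
        exact mul_le_mul e5 e6 (by linarith) (by linarith)
      · intro h
        exact (hex p r q hq h).trans (max_le h1 h2))
  refine ⟨c0, hc0, fun q hq p => ?_⟩
  obtain ⟨j, hj⟩ := h q hq p
  refine ⟨j, ?_⟩
  rwa [Nat.cast_ofNat] at hj

end Pool.Agent.Y39.DG
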